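import Pool.Agent.V11257.Ck3

/-!
# In ZF, every strongly zero-dimensional realcompact space is N-compact

For a continuous function `f` from a strongly zero-dimensional space to the real line and `ε > 0`,
a single clopen set (which separates the even and the odd multiples of `ε` among the values of
`f`) gives a continuous function `g` to the natural numbers such that `f` varies by less than
`2 ε` on the fibres of `g`. So the embedding into the power of the real line gives, without any
choice, a closed embedding into the power of the natural numbers indexed by all continuous
functions to the natural numbers.
-/

namespace Pool.Agent.Results.MP_f5c99b_lc.StronglyZeroDimNCompact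

open FirstOrder FirstOrder.Language
open Pool.Agent.Helper672.Plain (LSet Mem El)
open Pool.Agent.H310Top (IsTopology)
open Pool.Agent.H635Amen (ZF)
open Pool.Agent.V11246 (IsStronglyZeroDim IsNCompact)
open Pool.Agent.V11257Z (IsRealcompact IsTychonoff)

universe u

/-- In every model of ZF, every strongly zero-dimensional realcompact space is N-compact. -/
theorem result (M : Type u) [LSet.Structure M] (hM : ZF M) (x t : M) (ht : IsTopology t x)
    (hT : IsTychonoff t x) (hz : IsStronglyZeroDim t x) (hr : IsRealcompact t x) :
    IsNCompact t x := by
  haveI := hM.toZermelo
  exact Pool.Agent.Helper672.ZFA.V257.nco_of_szd ht hT.1 hz hr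

end Pool.Agent.Results.MP_f5c99b_lc.StronglyZeroDimNCompact
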